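import Pool.Agent.Helper75.Sidon.BRank

/-! Sidon sets of size at least `c * √n / (1 + log n)` in the groups `(ℤ/p)^a × H` of odd order,
where `H` has at most `r` cyclic factors and `p ^ a ≤ |H| ^ (p - 1)`. -/

namespace Pool.Agent.Results.MP_644501_co.ElementaryTimesBoundedRank

/-- For every odd prime `p` and every `r` there is a constant `c > 0` such that, for all `a` and all
odd `m 0, …, m (r - 1)` with `p ^ a ≤ (∏ m j) ^ (p - 1)`, every group `G` isomorphic to
`(ℤ/p)^a × ∏ ℤ/(m j)` contains a Sidon set `A` with `c * √n ≤ |A| * (1 + log n)`, `n = |G|`. -/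
theorem result (p : ℕ) (hp : p.Prime) (hp2 : p ≠ 2) (r : ℕ) :
    ∃ c : ℝ, 0 < c ∧
      ∀ (a : ℕ) (m : Fin r → ℕ), (∀ j, Odd (m j)) → p ^ a ≤ (∏ j, m j) ^ (p - 1) →
      ∀ (G : Type) [AddCommGroup G] [Fintype G],
        Nonempty (G ≃+ ((Fin a → ZMod p) × (∀ j : Fin r, ZMod (m j)))) →
        ∃ A : Finset G,
          (∀ a ∈ A, ∀ b ∈ A, ∀ c ∈ A, ∀ d ∈ A,
              a + b = c + d → (a = c ∧ b = d) ∨ (a = d ∧ b = c)) ∧
          c * Real.sqrt (Fintype.card G) ≤
            (A.card : ℝ) * (1 + Real.log (Fintype.card G)) := by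
  have : Fact p.Prime := ⟨hp⟩
  exact Pool.Agent.Helper75.Sidon.bounded_rank p hp2 r

end Pool.Agent.Results.MP_644501_co.ElementaryTimesBoundedRank
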