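import Pool.Agent.Helper75.Sidon.NineMain

/-! Sidon sets of size at least `√n / 3` in the groups `(ℤ/9)^a × (ℤ/3)^(2ab)` of order `n`. -/

namespace Pool.Agent.Results.MP_644501_co.ExponentNine

/-- For all `a` and `b`, every group `G` isomorphic to `(ℤ/9)^a × (ℤ/3)^(2ab)` contains a Sidon set
`A` with `√|G| ≤ 3 |A|`. -/
theorem result (a b : ℕ) (G : Type) [AddCommGroup G] [Fintype G]
    (e : G ≃+ ((Fin a → ZMod 9) × (Fin (2 * a * b) → ZMod 3))) :
    ∃ A : Finset G,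
      (∀ a ∈ A, ∀ b ∈ A, ∀ c ∈ A, ∀ d ∈ A,
          a + b = c + d → (a = c ∧ b = d) ∨ (a = d ∧ b = c)) ∧
      Real.sqrt (Fintype.card G) ≤ 3 * A.card :=
  Pool.Agent.Helper75.Sidon.nine_family a b G e

end Pool.Agent.Results.MP_644501_co.ExponentNine
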