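import Pool.Agent.Helper75.Sidon.Five

/-! Sidon sets of size at least `3√n / 40` in the groups `(ℤ/25)^r` of order `n`. -/

namespace Pool.Agent.Results.MP_644501_co.ExponentTwentyFive

/-- For all `r`, every group `G` isomorphic to `(ℤ/25)^r` contains a Sidon set `A` with
`3 √|G| ≤ 40 |A|`. -/
theorem result (r : ℕ) (G : Type) [AddCommGroup G] [Fintype G] (e : G ≃+ (Fin r → ZMod 25)) :
    ∃ A : Finset G,
      (∀ a ∈ A, ∀ b ∈ A, ∀ c ∈ A, ∀ d ∈ A,
          a + b = c + d → (a = c ∧ b = d) ∨ (a = d ∧ b = c)) ∧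
      3 * Real.sqrt (Fintype.card G) ≤ 40 * A.card :=
  Pool.Agent.Helper75.Sidon.twentyfive_family r G e

end Pool.Agent.Results.MP_644501_co.ExponentTwentyFive
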