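import Pool.Agent.Helper75.Sidon.Main

/-! Sidon sets of size at least `c * n ^ (2 / 5)` in all finite abelian groups of odd order `n`. -/

namespace Pool.Agent.Results.MP_644501_co.TwoFifths

/-- There is a constant `c > 0` such that every finite abelian group `G` of odd order `n` contains a
Sidon set with at least `c * n ^ (2 / 5)` elements. -/
theorem result :
    ∃ c : ℝ, 0 < c ∧
      ∀ (G : Type) [AddCommGroup G] [Fintype G],
        Odd (Fintype.card G) →
        ∃ A : Finset G,
          (∀ a ∈ A, ∀ b ∈ A, ∀ c ∈ A, ∀ d ∈ A,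
              a + b = c + d → (a = c ∧ b = d) ∨ (a = d ∧ b = c)) ∧
          c * (Fintype.card G : ℝ) ^ (2 / 5 : ℝ) ≤ (A.card : ℝ) :=
  Pool.Agent.Helper75.Sidon.two_fifths

end Pool.Agent.Results.MP_644501_co.TwoFifths
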